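import Pool.Agent.H566.BohrLin

/-!
# Goldbach representations of almost all even integers in sparse Bohr sets, and inhomogeneous Diophantine
# approximation by Goldbach numbers

For real `α`, `β` and `0 < δ ≤ 1` consider the even integers `n ≤ X` with `‖α n + β‖ ≤ δ`, where `‖·‖` is the
distance to the nearest integer. There are about `δ X` of them; `δ` may be as small as a power `X ^ (-θ)`. If `α` is
not too close to fractions with small denominators, then all but a proportion `(log X) ^ (-A)` of these integers `n`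
have at least one eighth of the number of representations as a sum of two primes which Hardy and Littlewood predict,
also with the first prime in an arbitrary window of length at least `n / (log n) ^ W`.

* This holds for `θ < 3 / 5` and all large `X` if `α` is badly approximable, and generally for
  `θ < (4 / 5) (1 + 1 / τ) - 1` if `‖α q‖ ≥ c q ^ (-τ)` for all `q ≥ 1`.
* For EVERY irrational `α` and `θ < 3 / 5` it holds for arbitrarily large `X`; so for all real `β` there are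
  infinitely many even `n` with `‖α n + β‖ < n ^ (-θ)` which satisfy the lower bound of the problem.

Definitions from the starting files (in `Pool.Agent.H560R3.GB`): `g n`: the number of ordered pairs of primes
`(p₁, p₂)` with `p₁ + p₂ = n`; `sing n = 2 C₂ ∏_{p ∣ n, p > 2} (p - 1) / (p - 2)`, `C₂ = ∏_{p > 2} (1 - 1 / (p - 1) ^ 2)`;
`HL n = sing n * (n / (log n)²)`: the prediction of Hardy and Littlewood for `g n`.

Proof. The starting theorem `Pool.Agent.T6.H3.FR.class_few_reg4` says that all residue classes modulo `q` have few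
exceptions if `q ≤ X ^ (4 / 5 - ρ)` is not divisible by a member of a set `D` of at most `(log X) ^ c` integers
larger than `(log X) ^ (c + 1)`. Let `a / q` be a reduced fraction near `α`, `q ≤ Q` (Dirichlet), and `b / r` a
fraction with `a r - b q = 1`. Among the mediants `(u a + b) / (u q + r)` for `(log X) ^ (c + 1)` consecutive `u` near
`Q / q` there is one whose denominator `q₀` is not divisible by a member of `D`; it is at a distance of at most
`3 / (q Q)` from `α`. The Bohr set is contained in at most `5 δ q₀` residue classes modulo `q₀`.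
-/

set_option autoImplicit false

namespace Pool.Agent.Results.MP_629a14_nt.BohrSets

open Finset
open Pool.Agent.H560R3.GB (g HL sing)

/-- The distance of a real number to the nearest integer. -/
noncomputable def distInt (x : ℝ) : ℝ := |x - round x|

/-- `n` has at least one eighth of the number `HL n` of representations predicted by Hardy and Littlewood, and so
has the number of representations whose first prime `p` belongs to a window `(y₁, y₂]`, for all windows of length at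
least `n / (log n) ^ W`. -/
def Good (W n : ℕ) : Prop :=
  (1 / 8) * HL n ≤ g n ∧
  ∀ y₁ y₂ : ℕ, y₁ < y₂ → y₂ ≤ n → (n : ℝ) / Real.log n ^ W ≤ (y₂ : ℝ) - y₁ →
    (1 / 8) * (sing n * ((y₂ : ℝ) - y₁) / Real.log n ^ 2) ≤
      (((Ioc y₁ y₂).filter (fun p => p.Prime ∧ (n - p).Prime)).card : ℝ)

/-- The even integers `0 < n ≤ X` with `‖α n + β‖ ≤ δ`. -/
def bohr (X α β δ : ℝ) : Set ℕ := {n : ℕ | 0 < n ∧ (n : ℝ) ≤ X ∧ 2 ∣ n ∧ distInt (α * n + β) ≤ δ}

/-- The Bohr set has at least `δ X / 4` even members up to `X`, and at most `δ X / (log X) ^ A` of them are not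
good. -/
def AlmostAllGood (W A : ℕ) (X α β δ : ℝ) : Prop :=
  (bohr X α β δ).Finite ∧ δ * X / 4 ≤ ((bohr X α β δ).ncard : ℝ) ∧
    (({n ∈ bohr X α β δ | ¬ Good W n}.ncard : ℕ) : ℝ) ≤ δ * X / Real.log X ^ A

theorem win_good (W : ℕ) : ∃ n₀ : ℕ, ∀ n : ℕ, n₀ ≤ n → 2 ∣ n → Pool.Agent.T6.H3.FF.WinM W n → Good W n := by
  obtain ⟨n₀, hn₀⟩ := exists_nat_gt (Real.exp 1)
  refine ⟨n₀ + 1, fun n hn _ hw => ⟨?_, fun y₁ y₂ h1 h2 h3 => hw y₁ y₂ h1 h2 h3⟩⟩
  have hn0 : 0 < n := by omega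
  have hne : Real.exp 1 ≤ n := by
    have : (n₀ : ℝ) ≤ n := by
      have : n₀ ≤ n := by omega
      exact_mod_cast this
    linarith
  have hlog : 1 ≤ Real.log n := by
    rw [Real.le_log_iff_exp_le (by exact_mod_cast hn0)]
    exact hne
  have h1 := hw 0 n hn0 le_rfl (by
    have : (1 : ℝ) ≤ Real.log n ^ W := one_le_pow₀ hlog
    have h2 : (n : ℝ) / Real.log n ^ W ≤ n := div_le_self (Nat.cast_nonneg _) this
    simpa using h2)
  have h2 : Pool.Agent.W93.PG.cnt n 0 n = g n := by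
    unfold Pool.Agent.W93.PG.cnt g
    refine card_bij (fun p _ => (p, n - p)) ?_ ?_ ?_
    · intro p hp
      rw [mem_filter, mem_Ioc] at hp
      rw [mem_filter, HasAntidiagonal.mem_antidiagonal]
      exact ⟨by simp only; omega, hp.2⟩
    · intro p _ p' _ h
      exact congrArg Prod.fst h
    · rintro ⟨a, b⟩ h
      rw [mem_filter, HasAntidiagonal.mem_antidiagonal] at h
      obtain ⟨h1, h2, h3⟩ := h
      simp only at h1 h2 h3
      have ha := h2.pos
      refine ⟨a, ?_, ?_⟩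
      · rw [mem_filter, mem_Ioc]
        refine ⟨⟨ha, by omega⟩, h2, ?_⟩
        have : n - a = b := by omega
        rw [this]
        exact h3
      · have : n - a = b := by omega
        simp [this]
  rw [h2] at h1
  refine le_trans (le_of_eq ?_) h1
  unfold Pool.Agent.H560R3.GB.HL
  push_cast
  ring

/-- (1) A uniform theorem: all `α` which are not too close to fractions with small denominators.
(2) The numbers `α` of finite type; for `τ = 1` the badly approximable ones, with all `θ < 3 / 5`.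
(3) All irrational `α` and `θ < 3 / 5`, for arbitrarily large `X`.
(4) Diophantine approximation by even integers with many Goldbach representations. -/
theorem result (A W : ℕ) :
    (∀ ρ : ℝ, 0 < ρ → ∃ X₀ : ℝ, ∀ X : ℝ, X₀ ≤ X → ∀ α β δ : ℝ, 0 < δ → δ ≤ 1 →
      (∀ q : ℕ, 1 ≤ q → (q : ℝ) ≤ X ^ (1 / 5 + ρ) / δ → X ^ (ρ - 4 / 5) < distInt (α * q)) →
      AlmostAllGood W A X α β δ) ∧
    (∀ α c τ θ : ℝ, 0 < c → 1 ≤ τ → 0 ≤ θ → θ < 4 / 5 * (1 + 1 / τ) - 1 →
      (∀ q : ℕ, 1 ≤ q → c / (q : ℝ) ^ τ ≤ distInt (α * q)) →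
      ∃ X₀ : ℝ, ∀ X : ℝ, X₀ ≤ X → ∀ β : ℝ, AlmostAllGood W A X α β (X ^ (-θ))) ∧
    (∀ α θ : ℝ, Irrational α → 0 ≤ θ → θ < 3 / 5 →
      ∀ X₁ : ℝ, ∃ X : ℝ, X₁ ≤ X ∧ ∀ β : ℝ, AlmostAllGood W A X α β (X ^ (-θ))) ∧
    (∀ α β θ : ℝ, Irrational α → 0 ≤ θ → θ < 3 / 5 →
      {n : ℕ | 2 ∣ n ∧ distInt (α * n + β) < (n : ℝ) ^ (-θ) ∧ Good W n}.Infinite) := by
  have H1 : ∀ (A : ℕ) (ρ : ℝ), 0 < ρ → ∃ X₀ : ℝ, ∀ X : ℝ, X₀ ≤ X → ∀ α β δ : ℝ, 0 < δ → δ ≤ 1 →
      (∀ q : ℕ, 1 ≤ q → (q : ℝ) ≤ X ^ (1 / 5 + ρ) / δ → X ^ (ρ - 4 / 5) < distInt (α * q)) →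
      AlmostAllGood W A X α β δ := by
    intro A ρ hρ
    obtain ⟨x₀, h0⟩ := Pool.Agent.H566.bohr_main (Good W) W (win_good W) ρ hρ A
    obtain ⟨x₁, h1⟩ := Pool.Agent.H566.bohr_lower ρ hρ
    refine ⟨max x₀ x₁, fun X hX α β δ hδ hδ1 hα => ⟨?_, ?_, ?_⟩⟩
    · refine (Set.finite_Iic ⌊X⌋₊).subset ?_
      intro n hn
      exact Nat.le_floor hn.2.1
    · exact h1 X ((le_max_right _ _).trans hX) α β δ hδ hδ1 hα
    · have h2 := h0 X ((le_max_left _ _).trans hX) α β δ hδ hδ1 hα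
      have e : {n ∈ bohr X α β δ | ¬ Good W n} = Pool.Agent.H566.badBohr (Good W) X α β δ := by
        ext n
        simp only [bohr, Pool.Agent.H566.badBohr, Set.mem_ofPred_eq, distInt, Pool.Agent.H566.dist1]
        tauto
      rw [e]
      exact h2
  have H3 : ∀ (A : ℕ) (α θ : ℝ), Irrational α → 0 ≤ θ → θ < 3 / 5 →
      ∀ X₁ : ℝ, ∃ X : ℝ, X₁ ≤ X ∧ ∀ β : ℝ, AlmostAllGood W A X α β (X ^ (-θ)) := by
    intro A α θ hα hθ0 hθ X₁
    obtain ⟨ρ, hρ, h⟩ := Pool.Agent.H566.hyp_of_irrational α θ hα hθ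
    obtain ⟨x₀, h0⟩ := H1 A ρ hρ
    obtain ⟨X, hX, hX1, h2⟩ := h (max x₀ X₁)
    exact ⟨X, (le_max_right _ _).trans hX, fun β => h0 X ((le_max_left _ _).trans hX) α β _
      (Real.rpow_pos_of_pos (by linarith) _) (Real.rpow_le_one_of_one_le_of_nonpos hX1 (by linarith)) h2⟩
  refine ⟨H1 A, ?_, H3 A, ?_⟩
  · intro α c τ θ hc hτ hθ0 hθ hα
    obtain ⟨ρ, hρ, x₁, h⟩ := Pool.Agent.H566.hyp_of_type τ c α θ hτ hc hα hθ
    obtain ⟨x₀, h0⟩ := H1 A ρ hρ
    refine ⟨max (max x₀ x₁) 1, fun X hX β => ?_⟩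
    have hX1 : 1 ≤ X := (le_max_right _ _).trans hX
    exact h0 X ((le_max_left _ _).trans ((le_max_left _ _).trans hX)) α β _
      (Real.rpow_pos_of_pos (by linarith) _) (Real.rpow_le_one_of_one_le_of_nonpos hX1 (by linarith))
      (h X ((le_max_right _ _).trans ((le_max_left _ _).trans hX)))
  · intro α β θ hα hθ0 hθ
    obtain ⟨θ', hθ', hθ''⟩ := exists_between hθ
    intro hfin
    obtain ⟨M, hM⟩ : ∃ M : ℝ, M = ({n : ℕ | 2 ∣ n ∧ distInt (α * n + β) < (n : ℝ) ^ (-θ) ∧ Good W n}.ncard : ℝ) :=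
      ⟨_, rfl⟩
    obtain ⟨x₁, hx₁1, hx₁⟩ := Pool.Agent.H566.log_pow_le 0 (1 - θ') (by linarith) (8 * M + 8)
    obtain ⟨X, hX, h⟩ := H3 1 α θ' hα (by linarith) hθ'' (max x₁ (Real.exp 8))
    have hX1 : x₁ ≤ X := (le_max_left _ _).trans hX
    have hX2 : Real.exp 8 ≤ X := (le_max_right _ _).trans hX
    have hXe : 1 < X := lt_of_lt_of_le (Real.one_lt_exp_iff.2 (by norm_num)) hX2
    have hXpos : 0 < X := by linarith
    have hlog : 8 ≤ Real.log X := (Real.le_log_iff_exp_le hXpos).2 hX2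
    have hg := hx₁ X hX1
    rw [pow_zero, mul_one] at hg
    obtain ⟨hf, hlow, hup⟩ := h β
    have e : X ^ (-θ') * X = X ^ (1 - θ') := by
      nth_rewrite 2 [← Real.rpow_one X]
      rw [← Real.rpow_add hXpos]
      congr 1; ring
    rw [e] at hlow hup
    rw [pow_one] at hup
    have hsub : bohr X α β (X ^ (-θ')) ⊆ {n ∈ bohr X α β (X ^ (-θ')) | ¬ Good W n} ∪
        {n : ℕ | 2 ∣ n ∧ distInt (α * n + β) < (n : ℝ) ^ (-θ) ∧ Good W n} := by
      intro n hn
      by_cases hG : Good W n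
      · right
        obtain ⟨h0, h1, h2, h3⟩ := hn
        refine ⟨h2, lt_of_le_of_lt h3 ?_, hG⟩
        have hn0 : (0 : ℝ) < n := by exact_mod_cast h0
        calc X ^ (-θ') < X ^ (-θ) := Real.rpow_lt_rpow_of_exponent_lt hXe (by linarith)
          _ ≤ (n : ℝ) ^ (-θ) := Real.rpow_le_rpow_of_nonpos hn0 h1 (by linarith)
      · left
        exact ⟨hn, hG⟩
    have hbf : {n ∈ bohr X α β (X ^ (-θ')) | ¬ Good W n}.Finite := hf.subset (fun n hn => hn.1)
    have h1 := Set.ncard_le_ncard hsub (hbf.union hfin)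
    have h2 := Set.ncard_union_le {n ∈ bohr X α β (X ^ (-θ')) | ¬ Good W n}
      {n : ℕ | 2 ∣ n ∧ distInt (α * n + β) < (n : ℝ) ^ (-θ) ∧ Good W n}
    have h3 : ((bohr X α β (X ^ (-θ'))).ncard : ℝ) ≤
        ({n ∈ bohr X α β (X ^ (-θ')) | ¬ Good W n}.ncard : ℝ) + M := by
      rw [hM]
      exact_mod_cast h1.trans h2
    have h4 : X ^ (1 - θ') / Real.log X ≤ X ^ (1 - θ') / 8 :=
      div_le_div_of_nonneg_left (Real.rpow_pos_of_pos hXpos _).le (by norm_num) hlog
    have hM0 : 0 ≤ M := by rw [hM]; exact Nat.cast_nonneg _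
    linarith

end Pool.Agent.Results.MP_629a14_nt.BohrSets
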