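import Pool.Agent.H530.HuG

/-!
Goldbach's problem for several numbers `N_1, …, N_k` at once, with almost primes and the parity of the number
of their prime factors, for ALL large `N_i` (no exceptional set), in progressions and windows.

`m = u + q n`, `1 ≤ n ≤ X`, runs through a progression of modulus `q ≤ (log X)^B` and the `N_i ≤ X (log X)^B`
exceed all the `m`. If there is no local obstruction then the number of the `m` such that the `k + 1` numbers
`m`, `N_1 - m`, …, `N_k - m` have no prime factor `≤ X^(1/R)` is given by the product of the local densities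
up to a factor `1 + O(ε)`; each of the `k + 1` numbers has an odd number of prime factors for half of these
`m`; at least half of the `k + 1` numbers have an odd number of prime factors for a proportion `≥ 1 / (k + 3)`
of these `m`; for a positive proportion either all the `N_i - m` have an odd number of prime factors or `m`
and one of the `N_i - m` have (so that `N_i` is a sum of two such numbers); no half space of parity patterns is
avoided.
-/

set_option autoImplicit false

namespace Pool.Agent.Results.MP_629a14_nt.OddAlmostPrimeSums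

open Finset

/-- the numbers `m`, `N_1 - m`, …, `N_k - m` for `m = u + q n` -/
def member {k : ℕ} (q u : ℕ) (N : Fin k → ℕ) (n : ℕ) : Fin (k + 1) → ℕ :=
  Fin.cons (u + q * n) (fun i => N i - (u + q * n))

/-- the number of prime factors of the `j`-th of them, with multiplicity -/
def om {k : ℕ} (q u : ℕ) (N : Fin k → ℕ) (n : ℕ) (j : Fin (k + 1)) : ℕ :=
  ArithmeticFunction.cardFactors (member q u N n j)

open Classical in
/-- the `n`, `1 ≤ n ≤ X`, such that none of the `k + 1` numbers has a prime factor `p` with `p ^ R ≤ X` -/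
noncomputable def rough {k : ℕ} (q u : ℕ) (N : Fin k → ℕ) (R X : ℕ) : Finset ℕ :=
  (Icc 1 X).filter (fun n => ∀ p : ℕ, p.Prime → p ^ R ≤ X → ∀ j, ¬ p ∣ member q u N n j)

/-- there is no local obstruction -/
def Soluble {k : ℕ} (q u : ℕ) (N : Fin k → ℕ) : Prop :=
  ∀ p : ℕ, p.Prime → ∃ n : ℤ, ¬ (p : ℤ) ∣ u + q * n ∧ ∀ i, ¬ (p : ℤ) ∣ N i - (u + q * n)

open Classical in
/-- the number of `n` modulo `p` for which `p` divides one of the `k + 1` numbers -/
noncomputable def nu {k : ℕ} (q u : ℕ) (N : Fin k → ℕ) (p : ℕ) : ℕ :=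
  ((range p).filter (fun n : ℕ => (p : ℤ) ∣ u + q * n ∨ ∃ i, (p : ℤ) ∣ (N i : ℤ) - (u + q * n))).card

open Classical in
theorem result (k : ℕ) : ∃ c δ : ℝ, 0 < c ∧ 0 < δ ∧ ∀ ε : ℝ, 0 < ε → ∃ R : ℕ, 1 ≤ R ∧ ∀ B : ℕ, ∃ X₀ : ℕ,
    ∀ X : ℕ, X₀ ≤ X → ∀ (q u : ℕ) (N : Fin k → ℕ), 1 ≤ q → (q : ℝ) ≤ Real.log X ^ B → (u : ℝ) ≤ X * Real.log X ^ B →
    (∀ i, u + q * X ≤ N i ∧ (N i : ℝ) ≤ X * Real.log X ^ B) → Soluble q u N →
      -- the number of the `n`
      c * (X / Real.log X ^ (k + 1)) ≤ ((rough q u N R X).card : ℝ) ∧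
      |((rough q u N R X).card : ℝ) -
        X * ∏ p ∈ (Icc 1 X).filter (fun p => p.Prime ∧ p ^ R ≤ X), (1 - (nu q u N p : ℝ) / p)| ≤
        ε * (rough q u N R X).card ∧
      -- few prime factors
      (∀ n ∈ rough q u N R X, ∀ j, om q u N n j ≤ R) ∧
      -- each number has an odd number of prime factors half of the time
      (∀ j, |(((rough q u N R X).filter (fun n => Odd (om q u N n j))).card : ℝ) -
        (1 / 2 : ℝ) * (rough q u N R X).card| ≤ ε * (rough q u N R X).card) ∧
      -- for two of the numbers: odd and odd as often as even and even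
      (∀ i j, |(((rough q u N R X).filter (fun n => Odd (om q u N n i) ∧ Odd (om q u N n j))).card : ℝ) -
        (((rough q u N R X).filter (fun n => Even (om q u N n i) ∧ Even (om q u N n j))).card : ℝ)| ≤
        ε * (rough q u N R X).card) ∧
      -- half of the numbers
      ((rough q u N R X).card : ℝ) ≤ (k + 3) * (((rough q u N R X).filter (fun n =>
        k + 1 ≤ 2 * (univ.filter (fun j => Odd (om q u N n j))).card)).card : ℝ) ∧
      -- sums or differences
      (δ * (rough q u N R X).card ≤ (((rough q u N R X).filter (fun n =>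
          Odd (om q u N n 0) ∧ ∃ i : Fin k, Odd (om q u N n i.succ))).card : ℝ) ∨
        δ * (rough q u N R X).card ≤ (((rough q u N R X).filter (fun n =>
          ∀ i : Fin k, Odd (om q u N n i.succ))).card : ℝ)) ∧
      -- half spaces
      ∀ w : Fin (k + 1) → ℝ, δ * (rough q u N R X).card ≤
        (((rough q u N R X).filter (fun n => 0 ≤ ∑ j, w j * (-1) ^ om q u N n j)).card : ℝ) := by
  obtain ⟨c, δ, hc, hδ, H⟩ := Pool.Agent.H530.Ha.sysZ (k + 1) (by omega)
  refine ⟨c, δ / 2, hc, by positivity, fun ε hε => ?_⟩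
  obtain ⟨R, hR, H1⟩ := H ε hε
  refine ⟨R, hR, fun B => ?_⟩
  obtain ⟨X0, H2⟩ := H1 (B + 1)
  obtain ⟨X1, hX1⟩ := Pool.Agent.H373R2.T7.ev_L' 2
  refine ⟨X0 + X1 + 2, fun X hX q u N hq hqX huX hN hS => ?_⟩
  have hXp : (0 : ℝ) < X := by exact_mod_cast (by omega : 0 < X)
  have hL := hX1 X (by omega)
  have hB1 : 2 * Real.log X ^ B ≤ Real.log X ^ (B + 1) := by
    rw [pow_succ, mul_comm]
    exact mul_le_mul_of_nonneg_left hL (by positivity)
  have hB2 : Real.log X ^ B ≤ Real.log X ^ (B + 1) := by
    have : 0 ≤ Real.log X ^ B := by positivity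
    linarith
  obtain ⟨A, hA⟩ : ∃ A : Fin (k + 1) → ℤ, A = Fin.cons (q : ℤ) (fun _ => -(q : ℤ)) := ⟨_, rfl⟩
  obtain ⟨b, hb⟩ : ∃ b : Fin (k + 1) → ℤ, b = Fin.cons (u : ℤ) (fun i => (N i : ℤ) - u) := ⟨_, rfl⟩
  have hA0 : A 0 = q := by rw [hA]; rfl
  have hb0 : b 0 = u := by rw [hb]; rfl
  have hAs : ∀ i : Fin k, A i.succ = -q := by intro i; rw [hA, Fin.cons_succ]
  have hbs : ∀ i : Fin k, b i.succ = (N i : ℤ) - u := by intro i; rw [hb, Fin.cons_succ]
  have hAd : Pool.Agent.H530.Ha.AdZ A b := by
    intro p hp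
    obtain ⟨n, hn1, hn2⟩ := hS p hp
    refine ⟨n, fun j => ?_⟩
    refine Fin.cases ?_ (fun i => ?_) j
    · rw [hA0, hb0, add_comm]
      exact hn1
    · rw [hAs, hbs]
      have e : -(q : ℤ) * n + ((N i : ℤ) - u) = N i - (u + q * n) := by ring
      rw [e]
      exact hn2 i
  have hq1 : (1 : ℤ) ≤ q := by exact_mod_cast hq
  have habs : ∀ j, A j ≠ 0 ∧ |(A j : ℝ)| ≤ Real.log X ^ (B + 1) ∧ |(b j : ℝ)| ≤ X * Real.log X ^ (B + 1) := by
    intro j
    refine Fin.cases ?_ (fun i => ?_) j
    · rw [hA0, hb0]
      refine ⟨by omega, ?_, ?_⟩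
      · rw [Int.cast_natCast, abs_of_nonneg (Nat.cast_nonneg _)]
        exact hqX.trans hB2
      · rw [Int.cast_natCast, abs_of_nonneg (Nat.cast_nonneg _)]
        exact huX.trans (mul_le_mul_of_nonneg_left hB2 hXp.le)
    · rw [hAs, hbs]
      refine ⟨by omega, ?_, ?_⟩
      · push_cast
        rw [abs_neg, abs_of_nonneg (Nat.cast_nonneg _)]
        exact hqX.trans hB2
      · push_cast
        have h1 : ((u : ℕ) : ℝ) ≤ N i := by
          have := (hN i).1
          exact_mod_cast (by omega : u ≤ N i)
        rw [abs_of_nonneg (by linarith)]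
        have h2 : (0 : ℝ) ≤ u := Nat.cast_nonneg _
        have h3 := mul_le_mul_of_nonneg_left hB2 hXp.le
        linarith [(hN i).2]
  have hval : ∀ n ∈ Icc 1 X, ∀ j, (A j * n + b j).natAbs = member q u N n j := by
    intro n hn j
    rw [mem_Icc] at hn
    have h1 : q * n ≤ q * X := Nat.mul_le_mul_left _ hn.2
    refine Fin.cases ?_ (fun i => ?_) j
    · rw [hA0, hb0]
      show _ = u + q * n
      have e : (q : ℤ) * n + u = ((u + q * n : ℕ) : ℤ) := by push_cast; ring
      rw [e, Int.natAbs_natCast]
    · rw [hAs, hbs]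
      show _ = N i - (u + q * n)
      have h2 := (hN i).1
      have e : -(q : ℤ) * n + ((N i : ℤ) - u) = ((N i - (u + q * n) : ℕ) : ℤ) := by
        rw [Nat.cast_sub (by omega)]
        push_cast
        ring
      rw [e, Int.natAbs_natCast]
  have hG : Pool.Agent.H530.Ha.GQ (Pool.Agent.H530.Ha.QZ A b) R X = rough q u N R X := by
    unfold Pool.Agent.H530.Ha.GQ rough
    apply filter_congr
    intro n hn
    apply forall_congr'
    intro p
    apply forall_congr'
    intro _
    apply forall_congr'
    intro _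
    unfold Pool.Agent.H530.Ha.QZ
    rw [not_exists]
    apply forall_congr'
    intro j
    rw [← hval n hn j, ← Int.natCast_dvd_natCast, Int.dvd_natAbs]
  have hnu : ∀ p, Pool.Agent.H373R2.T7.nuB (Pool.Agent.H530.Ha.QZ A b) p = nu q u N p := by
    intro p
    unfold Pool.Agent.H373R2.T7.nuB nu
    congr 1
    apply filter_congr
    intro n _
    unfold Pool.Agent.H530.Ha.QZ
    rw [Fin.exists_fin_succ, hA0, hb0, add_comm]
    apply or_congr Iff.rfl
    apply exists_congr
    intro i
    rw [hAs, hbs]
    have e : -(q : ℤ) * n + ((N i : ℤ) - u) = N i - (u + q * n) := by ring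
    rw [e]
  obtain ⟨R1, R2, R3, R4, R5, R6, R7⟩ := H2 X (by omega) A b habs hAd
  rw [hG] at R1 R2 R3 R4 R5 R6 R7
  have hR : ∀ n ∈ rough q u N R X, ∀ j, ArithmeticFunction.cardFactors (A j * n + b j).natAbs = om q u N n j := by
    intro n hn j
    unfold rough at hn
    rw [mem_filter] at hn
    rw [hval n hn.1 j]
    rfl
  have e5 : ∀ w : Fin (k + 1) → ℝ, (rough q u N R X).filter (fun n : ℕ =>
      0 ≤ ∑ j, w j * (-1) ^ ArithmeticFunction.cardFactors (A j * n + b j).natAbs) =
      (rough q u N R X).filter (fun n => 0 ≤ ∑ j, w j * (-1) ^ om q u N n j) := by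
    intro w
    apply filter_congr
    intro n hn
    have : ∑ j, w j * (-1) ^ ArithmeticFunction.cardFactors (A j * n + b j).natAbs =
        ∑ j, w j * (-1) ^ om q u N n j := sum_congr rfl fun j _ => by rw [hR n hn j]
    rw [this]
  have R7' : ∀ w : Fin (k + 1) → ℝ, δ * (rough q u N R X).card ≤
      (((rough q u N R X).filter (fun n => 0 ≤ ∑ j, w j * (-1) ^ om q u N n j)).card : ℝ) := by
    intro w
    rw [← e5 w]
    exact R7 w
  have hδ2 : δ / 2 * ((rough q u N R X).card : ℝ) ≤ δ * (rough q u N R X).card := by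
    have h1 : (0 : ℝ) ≤ (rough q u N R X).card := Nat.cast_nonneg _
    have h2 : 0 ≤ δ * ((rough q u N R X).card : ℝ) := by positivity
    linarith
  refine ⟨R1, ?_, ?_, ?_, ?_, ?_, ?_, fun w => hδ2.trans (R7' w)⟩
  · have e : ∏ p ∈ Pool.Agent.H530.Ha.PR R X, (1 - (Pool.Agent.H373R2.T7.nuB (Pool.Agent.H530.Ha.QZ A b) p : ℝ) / p) =
        ∏ p ∈ (Icc 1 X).filter (fun p => p.Prime ∧ p ^ R ≤ X), (1 - (nu q u N p : ℝ) / p) := by
      unfold Pool.Agent.H530.Ha.PR
      apply prod_congr
      · apply filter_congr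
        intro _ _
        rfl
      · intro p _
        rw [hnu]
    rw [← e]
    exact R2
  · intro n hn j
    rw [← hR n hn j]
    exact R3 n hn j
  · intro j
    have e : (rough q u N R X).filter (fun n : ℕ => Odd (ArithmeticFunction.cardFactors (A j * n + b j).natAbs)) =
        (rough q u N R X).filter (fun n => Odd (om q u N n j)) := by
      apply filter_congr
      intro n hn
      rw [hR n hn j]
    rw [← e]
    exact R4 j
  · intro i j
    have e : (rough q u N R X).filter (fun n : ℕ => Odd (ArithmeticFunction.cardFactors (A i * n + b i).natAbs) ∧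
        Odd (ArithmeticFunction.cardFactors (A j * n + b j).natAbs)) =
        (rough q u N R X).filter (fun n => Odd (om q u N n i) ∧ Odd (om q u N n j)) := by
      apply filter_congr
      intro n hn
      rw [hR n hn j, hR n hn i]
    have e' : (rough q u N R X).filter (fun n : ℕ => Even (ArithmeticFunction.cardFactors (A i * n + b i).natAbs) ∧
        Even (ArithmeticFunction.cardFactors (A j * n + b j).natAbs)) =
        (rough q u N R X).filter (fun n => Even (om q u N n i) ∧ Even (om q u N n j)) := by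
      apply filter_congr
      intro n hn
      rw [hR n hn j, hR n hn i]
    rw [← e, ← e']
    exact R5 i j
  · have e : (rough q u N R X).filter (fun n : ℕ =>
        k + 1 ≤ 2 * (univ.filter (fun j => Odd (ArithmeticFunction.cardFactors (A j * n + b j).natAbs))).card) =
        (rough q u N R X).filter (fun n => k + 1 ≤ 2 * (univ.filter (fun j => Odd (om q u N n j))).card) := by
      apply filter_congr
      intro n hn
      have : (univ.filter (fun j => Odd (ArithmeticFunction.cardFactors (A j * n + b j).natAbs))) =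
          univ.filter (fun j => Odd (om q u N n j)) := by
        apply filter_congr
        intro j _
        rw [hR n hn j]
      rw [this]
    rw [e] at R6
    have e3 : (((k + 1 : ℕ) : ℝ) + 2) = k + 3 := by push_cast; ring
    rw [e3] at R6
    exact R6
  · -- the half space with the weights `2 k - 1` and `-2`, …, `-2`
    by_contra hcon
    push Not at hcon
    obtain ⟨c1, c2⟩ := hcon
    have h1 := R7' (Fin.cons (-(2 * (k : ℝ) - 1)) (fun _ => -2))
    have h2 : (rough q u N R X).filter (fun n => 0 ≤ ∑ j, (Fin.cons (-(2 * (k : ℝ) - 1)) (fun _ => -2) : Fin (k + 1) → ℝ) j *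
        (-1) ^ om q u N n j) ⊆ (rough q u N R X).filter (fun n =>
          Odd (om q u N n 0) ∧ ∃ i : Fin k, Odd (om q u N n i.succ)) ∪ (rough q u N R X).filter (fun n =>
          ∀ i : Fin k, Odd (om q u N n i.succ)) := by
      intro n hn
      rw [mem_filter] at hn
      rw [mem_union, mem_filter, mem_filter]
      obtain ⟨hn1, hn2⟩ := hn
      rw [Fin.sum_univ_succ] at hn2
      simp only [Fin.cons_zero, Fin.cons_succ] at hn2
      have hpm : ∀ t : ℕ, (-1 : ℝ) ^ t = 1 ∨ (-1 : ℝ) ^ t = -1 := fun t => neg_one_pow_eq_or ℝ t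
      rcases Nat.even_or_odd (om q u N n 0) with h0 | h0
      · right
        refine ⟨hn1, fun i => ?_⟩
        by_contra hi
        rw [Nat.not_odd_iff_even] at hi
        rw [h0.neg_one_pow] at hn2
        -- the sum is at least `-2 (1 - (k - 1))`
        have h3 : ∑ i : Fin k, (-2 : ℝ) * (-1) ^ om q u N n i.succ ≤ -2 + 2 * ((k : ℝ) - 1) := by
          rw [← add_sum_erase univ _ (mem_univ i), hi.neg_one_pow]
          have h4 : ∑ x ∈ univ.erase i, (-2 : ℝ) * (-1) ^ om q u N n x.succ ≤ ∑ x ∈ univ.erase i, (2 : ℝ) := by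
            apply sum_le_sum
            intro x _
            rcases hpm (om q u N n x.succ) with h | h
            · rw [h]; norm_num
            · rw [h]; norm_num
          rw [sum_const, card_erase_of_mem (mem_univ i), card_univ, Fintype.card_fin, nsmul_eq_mul] at h4
          have hk1 : 1 ≤ k := by
            have := i.isLt
            omega
          rw [Nat.cast_sub hk1] at h4
          push_cast at h4
          linarith
        linarith
      · by_cases hex : ∃ i : Fin k, Odd (om q u N n i.succ)
        · left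
          exact ⟨hn1, h0, hex⟩
        · exfalso
          push Not at hex
          rw [h0.neg_one_pow] at hn2
          have h3 : ∑ i : Fin k, (-2 : ℝ) * (-1) ^ om q u N n i.succ = -2 * k := by
            rw [sum_congr rfl (fun i _ => by
              rw [(Nat.not_odd_iff_even.1 (hex i)).neg_one_pow])]
            rw [sum_const, card_univ, Fintype.card_fin, nsmul_eq_mul]
            ring
          rw [h3] at hn2
          linarith
    have h3 := card_le_card h2
    have h4 := card_union_le ((rough q u N R X).filter (fun n =>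
          Odd (om q u N n 0) ∧ ∃ i : Fin k, Odd (om q u N n i.succ))) ((rough q u N R X).filter (fun n =>
          ∀ i : Fin k, Odd (om q u N n i.succ)))
    have h5 : (((rough q u N R X).filter (fun n => 0 ≤ ∑ j, (Fin.cons (-(2 * (k : ℝ) - 1)) (fun _ => -2) : Fin (k + 1) → ℝ) j *
        (-1) ^ om q u N n j)).card : ℝ) ≤ (((rough q u N R X).filter (fun n =>
          Odd (om q u N n 0) ∧ ∃ i : Fin k, Odd (om q u N n i.succ))).card : ℝ) + (((rough q u N R X).filter (fun n =>
          ∀ i : Fin k, Odd (om q u N n i.succ))).card : ℝ) := by exact_mod_cast h3.trans h4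
    linarith

end Pool.Agent.Results.MP_629a14_nt.OddAlmostPrimeSums
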