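import Pool.Agent.H76.VG.Conv
import Pool.Agent.H76.VG.U3

/-!
# Vinogradov's three primes theorem inside the Goldbach decompositions of almost all numbers

The prime `p` is called a Goldbach prime of `N` if `N - p` is prime; their number is `r_2(N; P)`. For all `N₁`,
`N₂`, `N₃ ≤ X` outside a set of at most `X / (log X) ^ A` numbers and for every `m` we prove the
Hardy-Littlewood formula, with the error `X ^ 2 / (log X) ^ A`, for the number of the representations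
`m = a + b + c` where `a`, `b`, `c` are Goldbach primes of `N₁`, `N₂`, `N₃`. In particular every `m` in the bulk
for which the congruences modulo `2` and `3` are solvable is such a sum, in the expected number of ways.
-/

set_option autoImplicit false

open Finset

namespace Pool.Agent.Results.MP_629a14_nt.VinogradovGoldbachPrimes

/-- The triples `(a, b, c)` of positive integers with `a < N₁`, `b < N₂`, `c < N₃` and `a + b + c = m`. -/
def Reps (N₁ N₂ N₃ m : ℕ) : Finset (ℕ × ℕ × ℕ) :=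
  (Ioo 0 N₁ ×ˢ Ioo 0 N₂ ×ˢ Ioo 0 N₃).filter (fun t => t.1 + t.2.1 + t.2.2 = m)

/-- The triples `(a, b, c)` in `Reps N₁ N₂ N₃ m` such that `a`, `b`, `c` and `N₁ - a`, `N₂ - b`, `N₃ - c` are
prime, that is, `a`, `b`, `c` are Goldbach primes of `N₁`, `N₂`, `N₃` with the sum `m`. -/
def GoldbachReps (N₁ N₂ N₃ m : ℕ) : Finset (ℕ × ℕ × ℕ) :=
  (Reps N₁ N₂ N₃ m).filter (fun t => t.1.Prime ∧ (N₁ - t.1).Prime ∧ t.2.1.Prime ∧ (N₂ - t.2.1).Prime ∧
    t.2.2.Prime ∧ (N₃ - t.2.2).Prime)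

/-- The number of the solutions modulo the prime `p` of the congruence `a + b + c ≡ m` such that `p` divides none
of `a`, `N₁ - a`, `b`, `N₂ - b`, `c`, `N₃ - c`. -/
def local_count (N₁ N₂ N₃ m p : ℕ) : ℕ :=
  ((range p ×ˢ range p ×ˢ range p).filter (fun t => t.1 + t.2.1 + t.2.2 ≡ m [MOD p] ∧
    ¬ (p : ℤ) ∣ t.1 * (N₁ - t.1) * t.2.1 * (N₂ - t.2.1) * t.2.2 * (N₃ - t.2.2))).card

/-- The singular series: the product over the primes `p ≤ X` of the local densities, divided by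
`(1 - 1 / p) ^ 6`. -/
noncomputable def singular (X N₁ N₂ N₃ m : ℕ) : ℝ :=
  ∏ p ∈ (Icc 1 X).filter Nat.Prime, ((local_count N₁ N₂ N₃ m p : ℝ) / p ^ 2) / (1 - 1 / (p : ℝ)) ^ 6

/-- For all `A` and `ε > 0` and all large `X` there is a set `E` of at most `X / (log X) ^ A` numbers such that
for all `N₁`, `N₂`, `N₃ ≤ X` outside `E` and all `m` the Hardy-Littlewood formula holds for the sum over the
representations of `m` by Goldbach primes of `N₁`, `N₂`, `N₃` (with logarithmic weights, and the error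
`X ^ 2 / (log X) ^ A`); if the congruences modulo `2` and `3` are solvable, then the singular series is at least
`exp (-87)`, and if there are at least `ε X ^ 2` triples of positive integers then the number of the
representations is within the factor `1 ± ε` of the expected one. -/
theorem result : ∀ (A : ℕ) (ε : ℝ), 0 < ε → ∃ X₀ : ℕ, ∀ X : ℕ, X₀ ≤ X →
    ∃ E : Finset ℕ, E ⊆ Icc 1 X ∧ (E.card : ℝ) ≤ X / Real.log X ^ A ∧
    ∀ N₁ ∈ Icc 1 X \ E, ∀ N₂ ∈ Icc 1 X \ E, ∀ N₃ ∈ Icc 1 X \ E, ∀ m : ℕ,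
      |∑ t ∈ GoldbachReps N₁ N₂ N₃ m, (Real.log t.1 * Real.log ((N₁ - t.1 : ℕ) : ℝ)) *
          (Real.log t.2.1 * Real.log ((N₂ - t.2.1 : ℕ) : ℝ)) * (Real.log t.2.2 * Real.log ((N₃ - t.2.2 : ℕ) : ℝ)) -
        singular X N₁ N₂ N₃ m * (Reps N₁ N₂ N₃ m).card| ≤ X ^ 2 / Real.log X ^ A ∧
      (0 < local_count N₁ N₂ N₃ m 2 → 0 < local_count N₁ N₂ N₃ m 3 →
        Real.exp (-87) ≤ singular X N₁ N₂ N₃ m ∧
        (ε * X ^ 2 ≤ (Reps N₁ N₂ N₃ m).card →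
          |((GoldbachReps N₁ N₂ N₃ m).card : ℝ) -
            singular X N₁ N₂ N₃ m * (Reps N₁ N₂ N₃ m).card / Real.log X ^ 6| ≤
          ε * (singular X N₁ N₂ N₃ m * (Reps N₁ N₂ N₃ m).card / Real.log X ^ 6))) := by
  intro A ε hε
  obtain ⟨X₀, h0⟩ := Pool.Agent.H76.VG.main_u Pool.Agent.H76.VG.u3 A ε hε
  refine ⟨X₀, fun X hX => ?_⟩
  obtain ⟨E, hE, hEc, hEx⟩ := h0 X hX
  refine ⟨E, hE, hEc, ?_⟩
  intro N₁ hN₁ N₂ hN₂ N₃ hN₃ m
  rw [mem_sdiff] at hN₁ hN₂ hN₃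
  obtain ⟨k1, k2⟩ := hEx N₁ hN₁.1 hN₁.2 N₂ hN₂.1 hN₂.2 N₃ hN₃.1 hN₃.2 m
  have e1 : (Reps N₁ N₂ N₃ m).card = (Pool.Agent.H76.VG.PP N₁ N₂ N₃ m).card := Pool.Agent.H76.VG.Rep_card N₁ N₂ N₃ m
  have e2 : singular X N₁ N₂ N₃ m = Pool.Agent.H76.VG.Sg X N₁ N₂ N₃ m := Pool.Agent.H76.VG.sing_eq X N₁ N₂ N₃ m
  have e3 := Pool.Agent.H76.VG.GRep_sum N₁ N₂ N₃ m
  have e4 := Pool.Agent.H76.VG.GRep_card N₁ N₂ N₃ m
  have e5 : GoldbachReps N₁ N₂ N₃ m = Pool.Agent.H76.VG.GRep N₁ N₂ N₃ m := rfl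
  have e6 : ∀ p, local_count N₁ N₂ N₃ m p = Pool.Agent.H76.VG.loc N₁ N₂ N₃ m p := fun _ => rfl
  rw [e5, e3, e1, e2]
  refine ⟨k1, fun h2 h3 => ?_⟩
  rw [e6] at h2 h3
  have l2 := Pool.Agent.H76.VG.loc_nu2 N₁ N₂ N₃ m 2 Nat.prime_two
  have l3 := Pool.Agent.H76.VG.loc_nu2 N₁ N₂ N₃ m 3 Nat.prime_three
  obtain ⟨k3, k4⟩ := k2 (by omega) (by omega)
  refine ⟨k3, fun hV => ?_⟩
  rw [e4]
  exact k4 hV

end Pool.Agent.Results.MP_629a14_nt.VinogradovGoldbachPrimes
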